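import Pool.Agent.Work.MP_27a5a0_lc.PD.I_CUT
import Pool.Agent.Work.MP_27a5a0_lc.DT.I_SL

/-!
MP_27a5a0_lc, block PD, item BLp: one block.
-/

set_option autoImplicit false

namespace Pool.Agent.UTSP.PD

open Finset Pool.Agent.UTSP Pool.Agent.UTSP.DT

namespace IBLp

variable {X : Type} [Fintype X]

theorem eps_eq (d : ℕ) (Δ r : ℝ) : eps (2 * d) Δ r = 3072 * d * r / Δ := by
  unfold eps
  push_cast
  ring

theorem eps_nonneg (d : ℕ) {Δ r : ℝ} (hΔ : 0 < Δ) (hr : 0 ≤ r) : 0 ≤ eps (2 * d) Δ r := by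
  rw [eps_eq]
  positivity

theorem eps_le_one (d : ℕ) {Δ r : ℝ} (hΔ : 0 < Δ) (hd : 1 ≤ d)
    (hr : r ≤ Δ / (32768 * ((2 * d : ℕ) : ℝ))) : eps (2 * d) Δ r ≤ 1 := by
  rw [eps_eq]
  have hd' : (0 : ℝ) < d := by exact_mod_cast hd
  rw [div_le_one hΔ]
  push_cast at hr
  rw [le_div_iff₀ (by positivity)] at hr
  nlinarith

open Classical in
/-- One step: a cut after which the potential is strictly smaller. -/
theorem step (hCUT : S_CUT) (hCT : S_CT) (δ : X → X → ℝ) (hδ : IsMet δ) (d : ℕ) (hd : 1 ≤ d)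
    (hdec : Dec δ d) {W : Type} [Fintype W] (y : W → X) (r θ φ : W → ℝ) (c : W → ℕ) (Δ : ℝ)
    (hΔ : 0 < Δ) (hOK : OKW Δ (2 * d) r c θ) (hφ : ∀ w, 0 ≤ φ w) (P : X → ℕ) (β M : ℕ)
    (hM : ∀ z, P z < M) (hβ : β < M)
    (hA : 0 < ∑ w, if β ∈ bl δ P (y w) (r w) then
      φ w * θ w ^ ee δ P (y w) (r w) (c w) * eps (2 * d) Δ (r w) else 0) :
    ∃ (Q : X → ℕ) (B R : ℝ), (∀ x y, Q x = Q y → δ x y ≤ Δ) ∧
      ∑ w, φ w * θ w ^ ee δ (cut δ P β Q B R M) (y w) (r w) (c w) *
          (if β ∈ bl δ (cut δ P β Q B R M) (y w) (r w) then 1 + eps (2 * d) Δ (r w) else 1) <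
        ∑ w, φ w * θ w ^ ee δ P (y w) (r w) (c w) *
          (if β ∈ bl δ P (y w) (r w) then 1 + eps (2 * d) Δ (r w) else 1) := by
  obtain ⟨g, hg⟩ : ∃ g : W → ℝ, g = fun w => φ w * θ w ^ ee δ P (y w) (r w) (c w) := ⟨_, rfl⟩
  have hgw : ∀ w, φ w * θ w ^ ee δ P (y w) (r w) (c w) = g w := fun w => by rw [hg]
  have hg0 : ∀ w, 0 ≤ g w := fun w => by
    rw [hg]
    exact mul_nonneg (hφ w) (pow_nonneg (by linarith [(hOK w).1]) _)
  obtain ⟨e, he⟩ : ∃ e : W → ℝ, e = fun w => eps (2 * d) Δ (r w) := ⟨_, rfl⟩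
  have hew : ∀ w, eps (2 * d) Δ (r w) = e w := fun w => by rw [he]
  have he0 : ∀ w, 0 ≤ e w := fun w => by
    rw [← hew w]
    exact eps_nonneg d hΔ (hOK w).2.2.1
  have he1 : ∀ w, e w ≤ 1 := fun w => by
    rw [← hew w]
    exact eps_le_one d hΔ hd (hOK w).2.2.2.2
  simp only [hgw, hew] at hA ⊢
  obtain ⟨a, ha⟩ : ∃ a : W → ℝ, a = fun w => if β ∈ bl δ P (y w) (r w) then g w * e w else 0 :=
    ⟨_, rfl⟩
  have haw : ∀ w, a w = if β ∈ bl δ P (y w) (r w) then g w * e w else 0 := fun w => by rw [ha]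
  have ha0 : ∀ w, 0 ≤ a w := fun w => by
    rw [haw]
    split_ifs
    · exact mul_nonneg (hg0 w) (he0 w)
    · exact le_rfl
  have hA' : 0 < ∑ w, a w := by
    rw [ha]
    exact hA
  -- the partition `Q`
  obtain ⟨Q, hQ1, hQ2⟩ := hdec Δ hΔ (fun x => ∑ w, if y w = x then a w else 0)
    (fun x => Finset.sum_nonneg fun w _ => by
      split_ifs
      · exact ha0 w
      · exact le_rfl)
  have hs1 : ∑ x, ∑ w, (if y w = x then a w else 0) = ∑ w, a w := by
    rw [Finset.sum_comm]
    refine Finset.sum_congr rfl fun w _ => ?_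
    rw [Finset.sum_ite_eq]
    simp
  have hs2 : ∑ x ∈ univ.filter (fun x => ∀ y, δ x y ≤ Δ / d → Q y = Q x),
      ∑ w, (if y w = x then a w else 0) =
      ∑ w, if (∀ z, δ (y w) z ≤ Δ / d → Q z = Q (y w)) then a w else 0 := by
    rw [Finset.sum_comm]
    refine Finset.sum_congr rfl fun w _ => ?_
    rw [Finset.sum_ite_eq]
    simp
  rw [hs1, hs2] at hQ2
  have hd' : (1 : ℝ) ≤ d := by exact_mod_cast hd
  -- the radii
  obtain ⟨T, hT1, hT⟩ := ISL.exists_T r c Δ d hΔ hd (fun j => (hOK j).2.2.2.1)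
  have hT' : (1 : ℝ) ≤ T := by exact_mod_cast hT1
  obtain ⟨u, hu⟩ : ∃ u : ℝ, u = Δ / (8 * (d : ℝ) * T) := ⟨_, rfl⟩
  have hu0 : 0 < u := by rw [hu]; positivity
  obtain ⟨B, hB⟩ : ∃ B : ℝ, B = Δ / d := ⟨_, rfl⟩
  have hB0 : 0 < B := by rw [hB]; positivity
  have hTu : T * u = B / 8 := by
    rw [hu, hB]
    field_simp
  have hrB : ∀ w, r w ≤ B / 65536 := fun w => by
    refine (hOK w).2.2.2.2.trans (le_of_eq ?_)
    rw [hB]
    push_cast
    field_simp
    norm_num
  obtain ⟨R, hR⟩ : ∃ R : ℕ → ℝ, R = fun t : ℕ => B / 4 + (t : ℝ) * u := ⟨_, rfl⟩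
  have hRt : ∀ t, R t = B / 4 + (t : ℝ) * u := fun t => by rw [hR]
  by_contra hcon
  push Not at hcon
  obtain ⟨new, hnew⟩ : ∃ new : ℕ → W → ℝ, new = fun t w =>
      φ w * θ w ^ ee δ (cut δ P β Q B (R t) M) (y w) (r w) (c w) *
          (if β ∈ bl δ (cut δ P β Q B (R t) M) (y w) (r w) then 1 + e w else 1) := ⟨_, rfl⟩
  obtain ⟨old, hold⟩ : ∃ old : W → ℝ, old = fun w =>
      g w * (if β ∈ bl δ P (y w) (r w) then 1 + e w else 1) := ⟨_, rfl⟩
  have hcon' : ∀ t, ∑ w, old w ≤ ∑ w, new t w := by
    intro t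
    rw [hold, hnew]
    exact hcon Q B (R t) hQ1
  -- the pointwise bound
  have hpt : ∀ t ∈ range T, ∀ w, new t w ≤ old w +
      (if β ∈ bl δ P (y w) (r w) then
        g w * (1 + e w) * (θ w ^ nr (r w) (c w) (R t - pad δ Q B (y w)) - 1) else 0) -
      (if (∀ z, δ (y w) z ≤ Δ / d → Q z = Q (y w)) then a w else 0) := by
    intro t ht w
    have htT : (t : ℝ) ≤ T := by exact_mod_cast (Finset.mem_range.1 ht).le
    have hRt1 : B / 4 ≤ R t := by
      rw [hRt]
      have : 0 ≤ (t : ℝ) * u := by positivity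
      linarith
    have hRt2 : R t ≤ B / 4 + B / 8 := by
      rw [hRt, ← hTu]
      have := mul_le_mul_of_nonneg_right htT hu0.le
      linarith
    have hr0 := (hOK w).2.2.1
    have hrR : r w < R t := by
      have := hrB w
      linarith
    obtain ⟨c1, c2, c3⟩ := hCUT X δ hδ P Q β M (y w) B (R t) (r w) (c w) hr0 hrR hB0.le hM hβ
    have hθ := (hOK w).1
    have hnn : 0 ≤ θ w ^ nr (r w) (c w) (R t - pad δ Q B (y w)) - 1 :=
      ISL.one_le_pow_nr _ hθ _
    have hnewtw : new t w = φ w * θ w ^ ee δ (cut δ P β Q B (R t) M) (y w) (r w) (c w) *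
          (if β ∈ bl δ (cut δ P β Q B (R t) M) (y w) (r w) then 1 + e w else 1) := by rw [hnew]
    have holdw : old w = g w * (if β ∈ bl δ P (y w) (r w) then 1 + e w else 1) := by rw [hold]
    by_cases hb : β ∈ bl δ P (y w) (r w)
    · rw [if_pos hb, holdw, if_pos hb]
      by_cases hp : ∀ z, δ (y w) z ≤ Δ / d → Q z = Q (y w)
      · rw [if_pos hp, haw, if_pos hb]
        have hpad : B ≤ pad δ Q B (y w) := ICUT.le_pad δ Q B (y w) (by rw [hB]; exact hp)
        have hr1 := hrB w
        obtain ⟨c4, c5⟩ := c3 (by linarith)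
        rw [hnewtw, if_neg c5, mul_one]
        have h1 : φ w * θ w ^ ee δ (cut δ P β Q B (R t) M) (y w) (r w) (c w) ≤ g w := by
          rw [← hgw w]
          exact mul_le_mul_of_nonneg_left (pow_le_pow_right₀ hθ c4) (hφ w)
        have h2 : 0 ≤ g w * (1 + e w) *
            (θ w ^ nr (r w) (c w) (R t - pad δ Q B (y w)) - 1) :=
          mul_nonneg (mul_nonneg (hg0 w) (by linarith [he0 w])) hnn
        linarith
      · rw [if_neg hp, sub_zero, hnewtw]
        have h1 : φ w * θ w ^ ee δ (cut δ P β Q B (R t) M) (y w) (r w) (c w) ≤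
            g w * θ w ^ nr (r w) (c w) (R t - pad δ Q B (y w)) := by
          rw [← hgw w, mul_assoc, ← pow_add]
          exact mul_le_mul_of_nonneg_left (pow_le_pow_right₀ hθ c1) (hφ w)
        have h2 : (if β ∈ bl δ (cut δ P β Q B (R t) M) (y w) (r w) then 1 + e w else 1) ≤
            1 + e w := by
          split_ifs
          · exact le_rfl
          · linarith [he0 w]
        have h3 : (0 : ℝ) ≤
            (if β ∈ bl δ (cut δ P β Q B (R t) M) (y w) (r w) then 1 + e w else 1) := by
          split_ifs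
          · linarith [he0 w]
          · norm_num
        have h4 : 0 ≤ g w * θ w ^ nr (r w) (c w) (R t - pad δ Q B (y w)) :=
          mul_nonneg (hg0 w) (by linarith)
        calc _ ≤ g w * θ w ^ nr (r w) (c w) (R t - pad δ Q B (y w)) * (1 + e w) :=
              mul_le_mul h1 h2 h3 h4
          _ = _ := by ring
    · have haz : a w = 0 := by rw [haw, if_neg hb]
      obtain ⟨c4, c5⟩ := c2 hb
      rw [if_neg hb, haz, ite_self, add_zero, sub_zero, holdw, if_neg hb, hnewtw, if_neg c5,
        mul_one, mul_one, ← hgw w]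
      exact mul_le_mul_of_nonneg_left (pow_le_pow_right₀ hθ c4) (hφ w)
  -- sum over the radii
  have hcost : ∀ w, ∑ t ∈ range T, (if β ∈ bl δ P (y w) (r w) then
        g w * (1 + e w) * (θ w ^ nr (r w) (c w) (R t - pad δ Q B (y w)) - 1) else 0) ≤
      T * a w / 4 := by
    intro w
    rw [haw]
    by_cases hb : β ∈ bl δ P (y w) (r w)
    · simp only [if_pos hb]
      rw [← Finset.mul_sum]
      have h1 := hCT (θ w) (r w) u (pad δ Q B (y w)) (B / 4) (c w) T (hOK w).1 (hOK w).2.1 hu0
        (hOK w).2.2.1 (fun s hs => by rw [hu]; exact hT w s hs)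
      have h2 : ∑ t ∈ range T, (θ w ^ nr (r w) (c w) (R t - pad δ Q B (y w)) - 1) ≤
          12 * r w / u := by
        refine le_trans (le_of_eq ?_) h1
        refine Finset.sum_congr rfl fun t _ => ?_
        rw [hRt]
      have h3 : 12 * r w / u = T * (e w / 32) := by
        rw [← hew w, eps_eq, hu]
        field_simp
        ring
      rw [h3] at h2
      have h4 : 0 ≤ g w * (1 + e w) := mul_nonneg (hg0 w) (by linarith [he0 w])
      refine (mul_le_mul_of_nonneg_left h2 h4).trans ?_
      have h5 : 0 ≤ g w * e w := mul_nonneg (hg0 w) (he0 w)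
      have h6 : 0 ≤ (T : ℝ) * (g w * e w) := mul_nonneg (by linarith) h5
      have h7 : g w * (1 + e w) * (T * (e w / 32)) = (T * (g w * e w)) * ((1 + e w) / 32) := by
        ring
      rw [h7, mul_div_assoc]
      rw [show (T : ℝ) * (g w * e w / 4) = (T * (g w * e w)) * (1 / 4) by ring]
      refine mul_le_mul_of_nonneg_left ?_ h6
      linarith [he1 w]
    · simp only [if_neg hb]
      simp
  have hsum : ∑ t ∈ range T, ∑ w, new t w ≤
      T * ∑ w, old w + T * (∑ w, a w) / 4 -
        T * ∑ w, (if (∀ z, δ (y w) z ≤ Δ / d → Q z = Q (y w)) then a w else 0) := by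
    calc ∑ t ∈ range T, ∑ w, new t w ≤ ∑ t ∈ range T, ∑ w, (old w +
      (if β ∈ bl δ P (y w) (r w) then
        g w * (1 + e w) * (θ w ^ nr (r w) (c w) (R t - pad δ Q B (y w)) - 1) else 0) -
      (if (∀ z, δ (y w) z ≤ Δ / d → Q z = Q (y w)) then a w else 0)) :=
          Finset.sum_le_sum fun t ht => Finset.sum_le_sum fun w _ => hpt t ht w
      _ = T * ∑ w, old w + ∑ w, ∑ t ∈ range T, (if β ∈ bl δ P (y w) (r w) then
        g w * (1 + e w) * (θ w ^ nr (r w) (c w) (R t - pad δ Q B (y w)) - 1) else 0) -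
        T * ∑ w, (if (∀ z, δ (y w) z ≤ Δ / d → Q z = Q (y w)) then a w else 0) := by
          simp only [Finset.sum_sub_distrib, Finset.sum_add_distrib]
          rw [Finset.sum_const, Finset.sum_const, Finset.card_range, nsmul_eq_mul, nsmul_eq_mul]
          congr 2
          exact Finset.sum_comm
      _ ≤ _ := by
          have h1 := Finset.sum_le_sum fun w (_ : w ∈ (univ : Finset W)) => hcost w
          have h2 : ∑ w, (T : ℝ) * a w / 4 = T * (∑ w, a w) / 4 := by
            rw [← Finset.sum_div, ← Finset.mul_sum]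
          rw [h2] at h1
          linarith
  have hlow : T * ∑ w, old w ≤ ∑ t ∈ range T, ∑ w, new t w := by
    have h1 : ∑ _t ∈ range T, ∑ w, old w ≤ ∑ t ∈ range T, ∑ w, new t w :=
      Finset.sum_le_sum fun t _ => hcon' t
    rwa [Finset.sum_const, Finset.card_range, nsmul_eq_mul] at h1
  have hTpos : (0 : ℝ) < T := by linarith
  have h5 : T * ((∑ w, a w) / 2) ≤
      T * ∑ w, (if (∀ z, δ (y w) z ≤ Δ / d → Q z = Q (y w)) then a w else 0) :=
    mul_le_mul_of_nonneg_left hQ2 hTpos.le
  have h6 : 0 < T * (∑ w, a w) := mul_pos hTpos hA'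
  linarith

end IBLp

open IBLp ICUT in
open Classical in
theorem pr_BLp (hCUT : S_CUT) (hCT : S_CT) : S_BLp := by
  intro X _ δ hδ d hd hdec W _ y r θ φ c Δ hΔ hOK hφ P β
  obtain ⟨n, hn⟩ : ∃ n : ℕ, n = (univ.filter (fun x => P x = β)).card := ⟨_, rfl⟩
  induction n using Nat.strong_induction_on generalizing P with
  | _ n ih =>
  obtain ⟨M, hM, hβ⟩ : ∃ M : ℕ, (∀ z, P z < M) ∧ β < M := by
    refine ⟨1 + β + Finset.univ.sup P, fun z => ?_, by omega⟩
    have h1 : P z ≤ Finset.univ.sup P := Finset.le_sup (Finset.mem_univ z)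
    omega
  by_cases hA : 0 < ∑ w, if β ∈ bl δ P (y w) (r w) then
      φ w * θ w ^ ee δ P (y w) (r w) (c w) * eps (2 * d) Δ (r w) else 0
  · obtain ⟨Q, B, R, hQ, hlt⟩ := step hCUT hCT δ hδ d hd hdec y r θ φ c Δ hΔ hOK hφ P β M hM hβ hA
    obtain ⟨P1, hP1⟩ : ∃ P1 : X → ℕ, P1 = cut δ P β Q B R M := ⟨_, rfl⟩
    rw [← hP1] at hlt
    have hne : P1 ≠ P := by
      intro h
      rw [h] at hlt
      exact lt_irrefl _ hlt
    have hbeta : ∀ x, P1 x = β → P x = β := fun x hx => by
      rw [hP1] at hx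
      exact (cut_beta δ P β Q B R M x hβ hx).1
    have hsm : (univ.filter (fun x => P1 x = β)).card < (univ.filter (fun x => P x = β)).card := by
      apply Finset.card_lt_card
      rw [Finset.ssubset_iff_of_subset]
      · obtain ⟨z, hz⟩ : ∃ z, P1 z ≠ P z := by
          by_contra hcon
          push Not at hcon
          exact hne (funext hcon)
        have hz' : P z = β ∧ R ≤ pad δ Q B z := by
          by_contra hcon
          apply hz
          rw [hP1]
          exact cut_not δ P β Q B R M z hcon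
        refine ⟨z, by simp [hz'.1], ?_⟩
        rw [Finset.mem_filter]
        rintro ⟨-, h⟩
        rw [hP1, cut_of δ P β Q B R M z hz'] at h
        omega
      · intro x hx
        rw [Finset.mem_filter] at hx ⊢
        exact ⟨hx.1, hbeta x hx.2⟩
    obtain ⟨P', h1, h2, h3, h4⟩ := ih _ (by rw [hn]; exact hsm) P1 rfl
    have hkeep : ∀ x, P x ≠ β → P1 x = P x := fun x hx => by
      rw [hP1]
      exact cut_not δ P β Q B R M x (fun h => hx h.1)
    refine ⟨P', ?_, ?_, ?_, h4.trans hlt.le⟩
    · intro x hx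
      rw [h1 x (by rw [hkeep x hx]; exact hx), hkeep x hx]
    · intro x x' hxx
      have h5 := h2 x x' hxx
      by_cases hx : P x = β ∧ R ≤ pad δ Q B x
      · have h6 : M ≤ P1 x' := by
          rw [← h5, hP1, cut_of δ P β Q B R M x hx]
          omega
        rw [hP1] at h6
        rw [hx.1, (cut_ge δ P β Q B R M x' hM h6).1]
      · by_cases hx' : P x' = β ∧ R ≤ pad δ Q B x'
        · have h6 : M ≤ P1 x := by
            rw [h5, hP1, cut_of δ P β Q B R M x' hx']
            omega
          rw [hP1] at h6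
          exact absurd (cut_ge δ P β Q B R M x hM h6) hx
        · rw [hP1, cut_not δ P β Q B R M x hx, cut_not δ P β Q B R M x' hx'] at h5
          exact h5
    · intro x x' hx hxx
      have h5 := h2 x x' hxx
      by_cases hc : R ≤ pad δ Q B x
      · have h6 : P1 x = M + Q x := by
          rw [hP1]
          exact cut_of δ P β Q B R M x ⟨hx, hc⟩
        have h7 : M ≤ P1 x' := by
          rw [← h5, h6]
          omega
        rw [hP1] at h7
        have h8 := cut_ge δ P β Q B R M x' hM h7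
        have h9 : P1 x' = M + Q x' := by
          rw [hP1]
          exact cut_of δ P β Q B R M x' h8
        refine hQ x x' ?_
        rw [h6, h9] at h5
        omega
      · refine h3 x x' ?_ hxx
        rw [hP1, cut_not δ P β Q B R M x (fun h => hc h.2)]
        exact hx
  · -- trivial windows only: split into points
    obtain ⟨idx, hidx⟩ : ∃ f : X → ℕ, Function.Injective f :=
      ⟨fun x => (Fintype.equivFin X x : ℕ), fun a b h =>
        (Fintype.equivFin X).injective (Fin.ext h)⟩
    have hzero : ∀ w, β ∈ bl δ P (y w) (r w) →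
        φ w * θ w ^ ee δ P (y w) (r w) (c w) * eps (2 * d) Δ (r w) = 0 := by
      have hnn : ∀ w ∈ (univ : Finset W), 0 ≤ (if β ∈ bl δ P (y w) (r w) then
          φ w * θ w ^ ee δ P (y w) (r w) (c w) * eps (2 * d) Δ (r w) else 0) := by
        intro w _
        split_ifs
        · exact mul_nonneg (mul_nonneg (hφ w) (pow_nonneg (by linarith [(hOK w).1]) _))
            (eps_nonneg d hΔ (hOK w).2.2.1)
        · exact le_rfl
      have h0 : ∑ w, (if β ∈ bl δ P (y w) (r w) then
          φ w * θ w ^ ee δ P (y w) (r w) (c w) * eps (2 * d) Δ (r w) else 0) = 0 :=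
        le_antisymm (not_lt.mp hA) (Finset.sum_nonneg hnn)
      rw [Finset.sum_eq_zero_iff_of_nonneg hnn] at h0
      intro w hw
      have := h0 w (mem_univ w)
      rwa [if_pos hw] at this
    refine ⟨fun x => if P x = β then M + idx x else P x, ?_, ?_, ?_, ?_⟩
    · intro x hx
      exact if_neg hx
    · intro x x' h
      by_cases hx : P x = β
      · by_cases hx' : P x' = β
        · rw [hx, hx']
        · simp only [if_pos hx, if_neg hx'] at h
          have := hM x'
          omega
      · by_cases hx' : P x' = β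
        · simp only [if_neg hx, if_pos hx'] at h
          have := hM x
          omega
        · simpa only [if_neg hx, if_neg hx'] using h
    · intro x x' hx h
      by_cases hx' : P x' = β
      · simp only [if_pos hx, if_pos hx'] at h
        have : x = x' := hidx (by omega)
        rw [this, hδ.self]
        exact hΔ.le
      · simp only [if_pos hx, if_neg hx'] at h
        have := hM x'
        omega
    · refine Finset.sum_le_sum fun w _ => ?_
      by_cases hb : β ∈ bl δ P (y w) (r w)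
      · rw [if_pos hb]
        have h1 := hzero w hb
        have hθ : 0 < θ w := by linarith [(hOK w).1]
        rcases mul_eq_zero.1 h1 with h2 | h2
        · rcases mul_eq_zero.1 h2 with h3 | h3
          · rw [h3]
            simp
          · exact absurd h3 (pow_pos hθ _).ne'
        · have hr : r w = 0 := by
            rw [eps_eq] at h2
            have hd' : (0 : ℝ) < d := by exact_mod_cast hd
            rcases div_eq_zero_iff.1 h2 with h3 | h3
            · rcases mul_eq_zero.1 h3 with h4 | h4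
              · exfalso
                have : (0 : ℝ) < 3072 * d := by positivity
                linarith
              · exact h4
            · exact absurd h3 hΔ.ne'
          have hc : c w = 0 := by
            by_contra hcon
            have := (hOK w).2.2.2.1 (Nat.pos_of_ne_zero hcon)
            linarith
          have hz : ∀ P' : X → ℕ, ee δ P' (y w) (r w) (c w) = 0 := fun P' => by
            rw [hc]
            unfold ee
            simp
          rw [hz, hz, h2]
          simp
      · rw [if_neg hb, mul_one]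
        refine mul_le_mul_of_nonneg_left ?_ (hφ w)
        refine pow_le_pow_right₀ (hOK w).1 ?_
        unfold ee
        refine Finset.sum_le_sum fun s _ => ?_
        unfold mm
        refine Finset.card_le_card ?_
        intro b hb'
        rw [mem_bl] at hb' ⊢
        obtain ⟨z, hz, e⟩ := hb'
        refine ⟨z, hz, ?_⟩
        have hzβ : P z ≠ β := by
          intro h
          apply hb
          rw [mem_bl]
          exact ⟨z, hz.trans (rad_le (r w) (hOK w).2.2.1 s), h⟩
        simpa only [if_neg hzβ] using e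

end Pool.Agent.UTSP.PD
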