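import Pool.Agent.Work.MP_27a5a0_lc.PD.Defs
import Pool.Agent.Work.MP_27a5a0_lc.DT.I_HP

/-!
MP_27a5a0_lc, block PD, item HPp: the hierarchy of partitions.
-/

set_option autoImplicit false

namespace Pool.Agent.UTSP.PD

open Finset Pool.Agent.UTSP Pool.Agent.UTSP.DT

open IHP in
theorem pr_HPp (hOL : S_OLp) : S_HPp := by
  intro X _ δ hδ d hd hdoub D hD hdiam L Ks
  classical
  have key := exists_seq (α := (X → ℕ) × ((X × {k // k ∈ Ks}) → ℝ))
    (fun k s => (∀ w, 0 ≤ s.2 w) ∧ (∀ x y, s.1 x = s.1 y → δ x y ≤ D / 2 ^ k) ∧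
      ∑ w, s.2 w * th k w.2.1 ^ ee δ s.1 w.1 (rr D d L k w.2.1) (cc L k w.2.1) ≤
        (Fintype.card X : ℝ) * Ks.card * (5 / 3) ^ (L + 1))
    (fun k s s' => (∀ x y, s'.1 x = s'.1 y → s.1 x = s.1 y) ∧
      ∀ w, s'.2 w = s.2 w * (4 / 3 : ℝ) ^ (if w.2.1 ≤ k ∧ k ≤ w.2.1 + L then
        mm δ s.1 w.1 (D / 2 ^ k / (65536 * d)) else 0))
    (fun _ => 0, fun _ => 1) ?_ ?_
  · obtain ⟨f, hf0, hf⟩ := key
    refine ⟨fun k => (f k).1, ?_, ?_, ?_, ?_⟩
    · intro x y
      simp only [hf0]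
    · intro k x y h
      exact (hf k).2.1 x y h
    · intro k x y h
      exact (hf k).1.2.1 x y h
    · intro y k1 hk1
      set w : X × {k // k ∈ Ks} := (y, ⟨k1, hk1⟩) with hw
      have hpsi : ∀ n, (f n).2 w = (4 / 3 : ℝ) ^ (∑ i ∈ range n,
          if k1 ≤ i ∧ i ≤ k1 + L then mm δ (f i).1 y (D / 2 ^ i / (65536 * d)) else 0) := by
        intro n
        induction n with
        | zero => rw [hf0, Finset.sum_range_zero, pow_zero]
        | succ n ih => rw [(hf n).2.2 w, ih, Finset.sum_range_succ, pow_add]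
      have hlast := hpsi (k1 + L + 1)
      rw [← Finset.sum_filter] at hlast
      have hset : (range (k1 + L + 1)).filter (fun i => k1 ≤ i ∧ i ≤ k1 + L) =
          Icc k1 (k1 + L) := by
        ext i
        simp only [Finset.mem_filter, Finset.mem_range, Finset.mem_Icc]
        omega
      rw [hset] at hlast
      obtain ⟨hnn, -, hsum⟩ := (hf (k1 + L + 1)).1
      rw [← hlast]
      refine le_trans ?_ hsum
      refine le_trans ?_ (Finset.single_le_sum (f := fun w : X × {k // k ∈ Ks} =>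
        (f (k1 + L + 1)).2 w * th (k1 + L + 1) w.2.1 ^
          ee δ (f (k1 + L + 1)).1 w.1 (rr D d L (k1 + L + 1) w.2.1) (cc L (k1 + L + 1) w.2.1))
        (fun w _ => mul_nonneg (hnn w)
          (pow_nonneg (by linarith [th_ge (k1 + L + 1) w.2.1]) _)) (Finset.mem_univ w))
      exact le_mul_of_one_le_right (hnn w)
        (one_le_pow₀ (by linarith [th_ge (k1 + L + 1) w.2.1]))
  · refine ⟨fun w => zero_le_one, ?_, ?_⟩
    · intro x y _
      rw [pow_zero, div_one]
      exact hdiam x y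
    · calc _ ≤ ∑ _w : X × {k // k ∈ Ks}, ((5 / 3 : ℝ) ^ (L + 1)) := by
            refine Finset.sum_le_sum fun w _ => ?_
            rw [one_mul]
            have hc : cc L 0 w.2.1 = L + 1 := by
              unfold cc
              rw [max_eq_right (Nat.zero_le _)]
              omega
            rw [hc]
            calc _ ≤ (5 / 3 : ℝ) ^ ee δ (fun _ => 0) w.1 (rr D d L 0 w.2.1) (L + 1) :=
                  pow_le_pow_left₀ (by linarith [th_ge 0 w.2.1]) (th_le 0 w.2.1) _
              _ ≤ (5 / 3 : ℝ) ^ (L + 1) :=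
                  pow_le_pow_right₀ (by norm_num) (ee_const δ w.1 _ (L + 1))
        _ = (Fintype.card X : ℝ) * Ks.card * (5 / 3) ^ (L + 1) := by
            rw [Finset.sum_const, Finset.card_univ, Fintype.card_prod, Fintype.card_coe,
              nsmul_eq_mul]
            push_cast
            ring
  · rintro k ⟨P, ψ⟩ ⟨hnn, hdi, hsum⟩
    have hΔ : (0 : ℝ) < D / 2 ^ (k + 1) := by positivity
    obtain ⟨P', hP1, hP2, hP3⟩ := hOL X δ hδ d hd hdoub (X × {k // k ∈ Ks}) (fun w => w.1)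
      (fun w => rr D d L (k + 1) w.2.1) (fun w => th (k + 1) w.2.1)
      (fun w => ψ w * (4 / 3 : ℝ) ^ (if w.2.1 ≤ k ∧ k ≤ w.2.1 + L then
        mm δ P w.1 (D / 2 ^ k / (65536 * d)) else 0))
      (fun w => cc L (k + 1) w.2.1) (D / 2 ^ (k + 1)) hΔ
      (okw d D hd hD L (k + 1) (fun w : X × {k // k ∈ Ks} => w.2.1))
      (fun w => mul_nonneg (hnn w) (by positivity)) P
    refine ⟨(P', fun w => ψ w * (4 / 3 : ℝ) ^ (if w.2.1 ≤ k ∧ k ≤ w.2.1 + L then
        mm δ P w.1 (D / 2 ^ k / (65536 * d)) else 0)), ⟨?_, ?_, ?_⟩, ?_, ?_⟩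
    · intro w
      exact mul_nonneg (hnn w) (by positivity)
    · exact hP2
    · refine le_trans hP3 (le_trans (Finset.sum_le_sum fun w _ => ?_) hsum)
      have ht := term_le δ P w.1 d D hd hD L k w.2.1
      have ht' := mul_le_mul_of_nonneg_left ht (hnn w)
      refine le_trans (le_of_eq ?_) ht'
      ring
    · exact hP1
    · intro w
      rfl

end Pool.Agent.UTSP.PD
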