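import Pool.Agent.Work.MP_27a5a0_lc.PD.Defs

/-!
MP_27a5a0_lc, block PD, item OLp: the octave lemma.
-/

set_option autoImplicit false

namespace Pool.Agent.UTSP.PD

open Finset Pool.Agent.UTSP Pool.Agent.UTSP.DT

namespace IOLp

open Classical in
/-- The induction over the treated labels. -/
lemma step (hBL : S_BLp) (X : Type) [Fintype X] (δ : X → X → ℝ) (hδ : IsMet δ) (d : ℕ)
    (hd : 1 ≤ d) (hdec : Dec δ d) (W : Type) [Fintype W] (y : W → X)
    (r θ φ : W → ℝ) (c : W → ℕ) (Δ : ℝ) (hΔ : 0 < Δ) (hOK : OKW Δ (2 * d) r c θ)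
    (hφ : ∀ w, 0 ≤ φ w) (P : X → ℕ) (L : Finset ℕ) : L ⊆ univ.image P →
    ∃ P1 : X → ℕ, (∀ x x', P1 x = P1 x' → P x = P x') ∧ (∀ x, P x ∉ L → P1 x = P x) ∧
      (∀ x x', P x ∈ L → P1 x = P1 x' → δ x x' ≤ Δ) ∧
      ∑ w, φ w * θ w ^ ee δ P1 (y w) (r w) (c w) *
          (1 + eps (2 * d) Δ (r w)) ^ ((bl δ P (y w) (r w)).filter (fun b => b ∉ L)).card ≤
        ∑ w, φ w * θ w ^ ee δ P (y w) (r w) (c w) *
          (1 + eps (2 * d) Δ (r w)) ^ mm δ P (y w) (r w) := by
  induction L using Finset.induction_on with
  | empty =>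
    intro _
    refine ⟨P, fun x x' h => h, fun x _ => rfl, fun x x' h => absurd h (Finset.notMem_empty _), ?_⟩
    apply le_of_eq
    refine Finset.sum_congr rfl fun w _ => ?_
    simp [mm]
  | insert β L hβ ih =>
    intro hsub
    obtain ⟨P1, ha, hb, hd1, he⟩ := ih (fun a ha => hsub (Finset.mem_insert_of_mem ha))
    have hβP : β ∈ univ.image P := hsub (Finset.mem_insert_self _ _)
    obtain ⟨x0, -, hx0⟩ := Finset.mem_image.1 hβP
    have hcc : ∀ x, P1 x = β → P x = β := by
      intro x hx
      have h1 : P1 x0 = β := by rw [hb x0 (by rw [hx0]; exact hβ), hx0]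
      have h2 := ha x x0 (by rw [hx, h1])
      rw [h2, hx0]
    have hE0 : ∀ w, 0 ≤ eps (2 * d) Δ (r w) := fun w => by
      have := (hOK w).2.2.1
      unfold eps
      positivity
    obtain ⟨P', h1, h2, h3, h4⟩ := hBL X δ hδ d hd hdec W y r θ
      (fun w => φ w * (1 + eps (2 * d) Δ (r w)) ^
        ((bl δ P (y w) (r w)).filter (fun b => b ∉ insert β L)).card) c Δ hΔ hOK
      (fun w => mul_nonneg (hφ w) (pow_nonneg (by linarith [hE0 w]) _)) P1 β
    refine ⟨P', fun x x' h => ha x x' (h2 x x' h), ?_, ?_, ?_⟩
    · intro x hx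
      have hx1 : P x ≠ β := fun h => hx (by rw [h]; exact Finset.mem_insert_self _ _)
      have hx2 : P x ∉ L := fun h => hx (Finset.mem_insert_of_mem h)
      have hx3 : P1 x = P x := hb x hx2
      rw [h1 x (by rw [hx3]; exact hx1), hx3]
    · intro x x' hx hxx
      rcases Finset.mem_insert.1 hx with h | h
      · refine h3 x x' ?_ hxx
        rw [hb x (by rw [h]; exact hβ), h]
      · exact hd1 x x' h (h2 x x' hxx)
    · refine le_trans ?_ he
      calc ∑ w, φ w * θ w ^ ee δ P' (y w) (r w) (c w) *
            (1 + eps (2 * d) Δ (r w)) ^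
              ((bl δ P (y w) (r w)).filter (fun b => b ∉ insert β L)).card
          = ∑ w, (φ w * (1 + eps (2 * d) Δ (r w)) ^
              ((bl δ P (y w) (r w)).filter (fun b => b ∉ insert β L)).card) *
              θ w ^ ee δ P' (y w) (r w) (c w) := by
            refine Finset.sum_congr rfl fun w _ => ?_
            ring
        _ ≤ _ := h4
        _ ≤ _ := by
            refine Finset.sum_le_sum fun w _ => ?_
            have hθ : 0 ≤ θ w ^ ee δ P1 (y w) (r w) (c w) :=
              pow_nonneg (by linarith [(hOK w).1]) _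
            have hA : 0 ≤ φ w * θ w ^ ee δ P1 (y w) (r w) (c w) := mul_nonneg (hφ w) hθ
            have key : (1 + eps (2 * d) Δ (r w)) ^
                ((bl δ P (y w) (r w)).filter (fun b => b ∉ insert β L)).card *
                (if β ∈ bl δ P1 (y w) (r w) then 1 + eps (2 * d) Δ (r w) else 1) ≤
                (1 + eps (2 * d) Δ (r w)) ^
                  ((bl δ P (y w) (r w)).filter (fun b => b ∉ L)).card := by
              have hone : (1 : ℝ) ≤ 1 + eps (2 * d) Δ (r w) := by linarith [hE0 w]
              split_ifs with hin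
              · have hinP : β ∈ bl δ P (y w) (r w) := by
                  unfold bl at hin ⊢
                  obtain ⟨x, hx, hxβ⟩ := Finset.mem_image.1 hin
                  exact Finset.mem_image.2 ⟨x, hx, hcc x hxβ⟩
                have hcard : ((bl δ P (y w) (r w)).filter (fun b => b ∉ L)).card =
                    ((bl δ P (y w) (r w)).filter (fun b => b ∉ insert β L)).card + 1 := by
                  rw [← Finset.card_insert_of_notMem (a := β)
                    (s := (bl δ P (y w) (r w)).filter (fun b => b ∉ insert β L))]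
                  · congr 1
                    ext b
                    simp only [Finset.mem_filter, Finset.mem_insert, not_or]
                    constructor
                    · rintro ⟨hb1, hb2⟩
                      by_cases hbb : b = β
                      · exact Or.inl hbb
                      · exact Or.inr ⟨hb1, hbb, hb2⟩
                    · rintro (hbb | ⟨hb1, -, hb2⟩)
                      · rw [hbb]; exact ⟨hinP, hβ⟩
                      · exact ⟨hb1, hb2⟩
                  · intro hmem
                    exact (Finset.mem_filter.1 hmem).2 (Finset.mem_insert_self _ _)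
                rw [hcard, pow_succ]
              · rw [mul_one]
                refine pow_le_pow_right₀ hone (Finset.card_le_card ?_)
                intro b hb'
                rw [Finset.mem_filter] at hb' ⊢
                exact ⟨hb'.1, fun h => hb'.2 (Finset.mem_insert_of_mem h)⟩
            calc _ = (φ w * θ w ^ ee δ P1 (y w) (r w) (c w)) * ((1 + eps (2 * d) Δ (r w)) ^
                ((bl δ P (y w) (r w)).filter (fun b => b ∉ insert β L)).card *
                (if β ∈ bl δ P1 (y w) (r w) then 1 + eps (2 * d) Δ (r w) else 1)) := by ring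
              _ ≤ _ := mul_le_mul_of_nonneg_left key hA

end IOLp

/-- Item OLp. -/
theorem pr_OLp (hBL : S_BLp) : S_OLp := by
  classical
  intro X _ δ hδ d hd hdec W _ y r θ φ c Δ hΔ hOK hφ P
  obtain ⟨P1, ha, hb, hd1, he⟩ := IOLp.step hBL X δ hδ d hd hdec W y r θ φ c Δ hΔ hOK hφ
    P (univ.image P) (Finset.Subset.refl _)
  refine ⟨P1, ha, fun x x' h => hd1 x x' (Finset.mem_image_of_mem P (Finset.mem_univ x)) h, ?_⟩
  refine le_trans (le_of_eq ?_) he
  refine Finset.sum_congr rfl fun w _ => ?_
  have h0 : ((bl δ P (y w) (r w)).filter (fun b => b ∉ univ.image P)).card = 0 := by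
    rw [Finset.card_eq_zero, Finset.filter_eq_empty_iff]
    intro b hb' hn
    apply hn
    unfold bl at hb'
    obtain ⟨x, -, hx⟩ := Finset.mem_image.1 hb'
    exact Finset.mem_image.2 ⟨x, Finset.mem_univ _, hx⟩
  rw [h0, pow_zero, mul_one]

end Pool.Agent.UTSP.PD
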