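import Pool.Agent.Work.MP_27a5a0_lc.DT.Stmts
import Pool.Agent.Work.MP_27a5a0_lc.DT.COa

/-!
MP_27a5a0_lc, block PD: universal TSP in metric spaces with padded decompositions,
ratio `O(β log n)`.  Definitions and statements.

Idea: the potential of the block DT, but the octave lemma is proved with padded decompositions:
one block is exhausted by steps: choose a partition `Q` into sets of diameter `≤ Δ` which pads half
of the weight of the windows, choose a radius `R` in `[Δ/4β, Δ/2β]`, cut off the points `z` whose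
distance to the complement of their `Q`-block is `≥ R`.
-/

set_option autoImplicit false

namespace Pool.Agent.UTSP.PD

open Finset Pool.Agent.UTSP Pool.Agent.UTSP.DT

variable {X : Type}

open Classical in
/-- For all weights and all `Δ > 0` there is a partition into sets of diameter `≤ Δ` such that at
least half of the weight is on points whose ball of radius `Δ / d` lies in one block. -/
def Dec [Fintype X] (δ : X → X → ℝ) (d : ℕ) : Prop :=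
  ∀ Δ : ℝ, 0 < Δ → ∀ ω : X → ℝ, (∀ x, 0 ≤ ω x) → ∃ Q : X → ℕ,
    (∀ x y, Q x = Q y → δ x y ≤ Δ) ∧
    (∑ x, ω x) / 2 ≤ ∑ x ∈ univ.filter (fun x => ∀ y, δ x y ≤ Δ / d → Q y = Q x), ω x

open Classical in
/-- Distance to the complement of the own `Q`-block, cut off at `B`. -/
noncomputable def pad [Fintype X] (δ : X → X → ℝ) (Q : X → ℕ) (B : ℝ) (z : X) : ℝ :=
  (univ : Finset X).inf' ⟨z, mem_univ z⟩ (fun x => if Q x = Q z then B else δ z x)

open Classical in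
/-- Cut off from the block `β` of `P` the points with `pad ≥ R`; new labels `M + Q z`. -/
noncomputable def cut [Fintype X] (δ : X → X → ℝ) (P : X → ℕ) (β : ℕ) (Q : X → ℕ) (B R : ℝ)
    (M : ℕ) : X → ℕ :=
  fun z => if P z = β ∧ R ≤ pad δ Q B z then M + Q z else P z

/-- [CUT] Effect of one cut on `ee` and `bl`. -/
def S_CUT : Prop :=
  ∀ (X : Type) [Fintype X] (δ : X → X → ℝ), IsMet δ → ∀ (P Q : X → ℕ) (β M : ℕ) (y : X)
    (B R r : ℝ) (k : ℕ), 0 ≤ r → r < R → 0 ≤ B → (∀ z, P z < M) → β < M →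
    ee δ (cut δ P β Q B R M) y r k ≤ ee δ P y r k + nr r k (R - pad δ Q B y) ∧
    (β ∉ bl δ P y r → ee δ (cut δ P β Q B R M) y r k ≤ ee δ P y r k ∧
      β ∉ bl δ (cut δ P β Q B R M) y r) ∧
    (R + r ≤ pad δ Q B y → ee δ (cut δ P β Q B R M) y r k ≤ ee δ P y r k ∧
      β ∉ bl δ (cut δ P β Q B R M) y r)

open Classical in
/-- [BLp] One block. -/
def S_BLp : Prop :=
  ∀ (X : Type) [Fintype X] (δ : X → X → ℝ), IsMet δ → ∀ d : ℕ, 1 ≤ d → Dec δ d →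
    ∀ (W : Type) [Fintype W] (y : W → X) (r θ φ : W → ℝ) (c : W → ℕ) (Δ : ℝ), 0 < Δ →
    OKW Δ (2 * d) r c θ → (∀ w, 0 ≤ φ w) → ∀ (P : X → ℕ) (β : ℕ),
    ∃ P' : X → ℕ, (∀ x, P x ≠ β → P' x = P x) ∧ (∀ x x', P' x = P' x' → P x = P x') ∧
      (∀ x x', P x = β → P' x = P' x' → δ x x' ≤ Δ) ∧
      ∑ w, φ w * θ w ^ ee δ P' (y w) (r w) (c w) ≤
        ∑ w, φ w * θ w ^ ee δ P (y w) (r w) (c w) *
          (if β ∈ bl δ P (y w) (r w) then 1 + eps (2 * d) Δ (r w) else 1)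

/-- [OLp] Octave lemma. -/
def S_OLp : Prop :=
  ∀ (X : Type) [Fintype X] (δ : X → X → ℝ), IsMet δ → ∀ d : ℕ, 1 ≤ d → Dec δ d →
    ∀ (W : Type) [Fintype W] (y : W → X) (r θ φ : W → ℝ) (c : W → ℕ) (Δ : ℝ), 0 < Δ →
    OKW Δ (2 * d) r c θ → (∀ w, 0 ≤ φ w) → ∀ P : X → ℕ,
    ∃ P' : X → ℕ, (∀ x x', P' x = P' x' → P x = P x') ∧ (∀ x x', P' x = P' x' → δ x x' ≤ Δ) ∧
      ∑ w, φ w * θ w ^ ee δ P' (y w) (r w) (c w) ≤
        ∑ w, φ w * θ w ^ ee δ P (y w) (r w) (c w) *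
          (1 + eps (2 * d) Δ (r w)) ^ mm δ P (y w) (r w)

/-- [HPp] The hierarchy. -/
def S_HPp : Prop :=
  ∀ (X : Type) [Fintype X] (δ : X → X → ℝ), IsMet δ → ∀ d : ℕ, 1 ≤ d → Dec δ d →
    ∀ D : ℝ, 0 < D → (∀ x y, δ x y ≤ D) → ∀ (L : ℕ) (Ks : Finset ℕ),
    ∃ P : ℕ → X → ℕ, (∀ x y, P 0 x = P 0 y) ∧ (∀ k x y, P (k + 1) x = P (k + 1) y → P k x = P k y) ∧
      (∀ k x y, P k x = P k y → δ x y ≤ D / 2 ^ k) ∧
      ∀ y, ∀ k1 ∈ Ks, (4 / 3 : ℝ) ^ (∑ k ∈ Icc k1 (k1 + L), mm δ (P k) y (D / 2 ^ k / (65536 * d))) ≤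
        (Fintype.card X : ℝ) * Ks.card * (5 / 3) ^ (L + 1)

/-- [MNp] Main theorem for the snowflakes, in terms of `HasRatio`. -/
def S_MNp : Prop :=
  ∃ C : ℝ, 0 < C ∧ ∀ (X : Type) [Fintype X] [DecidableEq X] (δ : X → X → ℝ), IsMet δ →
    ∀ d : ℕ, 1 ≤ d → Dec δ d → 2 ≤ Fintype.card X → ∀ α : ℝ, 0 < α → α ≤ 1 →
    ∃ τ : List X, IsOrd (univ : Finset X) τ ∧
      HasRatio (sf δ α) (C * (d : ℝ) ^ α * Real.log (Fintype.card X) / α) τ

end Pool.Agent.UTSP.PD
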