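import Pool.Agent.Work.MP_27a5a0_lc.PD.Defs

/-!
MP_27a5a0_lc, block PD, item CUT: effect of one cut on `ee` and `bl`.
-/

set_option autoImplicit false

namespace Pool.Agent.UTSP.PD

open Finset Pool.Agent.UTSP Pool.Agent.UTSP.DT

namespace ICUT

variable {X : Type} [Fintype X]

theorem mem_bl (δ : X → X → ℝ) (P : X → ℕ) (y : X) (t : ℝ) (b : ℕ) :
    b ∈ bl δ P y t ↔ ∃ z, δ y z ≤ t ∧ P z = b := by
  unfold bl
  simp only [mem_image, mem_filter, mem_univ, true_and]

theorem pad_le_B (δ : X → X → ℝ) (Q : X → ℕ) (B : ℝ) (z : X) : pad δ Q B z ≤ B := by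
  unfold pad
  refine (Finset.inf'_le _ (mem_univ z)).trans ?_
  rw [if_pos rfl]

theorem pad_le (δ : X → X → ℝ) (Q : X → ℕ) (B : ℝ) (z x : X) (h : Q x ≠ Q z) :
    pad δ Q B z ≤ δ z x := by
  unfold pad
  refine (Finset.inf'_le _ (mem_univ x)).trans ?_
  rw [if_neg h]

theorem pad_nonneg {δ : X → X → ℝ} (hδ : IsMet δ) (Q : X → ℕ) {B : ℝ} (hB : 0 ≤ B) (z : X) :
    0 ≤ pad δ Q B z := by
  unfold pad
  refine Finset.le_inf' _ _ fun x _ => ?_
  split_ifs with h
  · exact hB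
  · exact (hδ.pos z x (fun e => h (by rw [e]))).le

theorem le_pad (δ : X → X → ℝ) (Q : X → ℕ) (B : ℝ) (z : X)
    (h : ∀ x, δ z x ≤ B → Q x = Q z) : B ≤ pad δ Q B z := by
  unfold pad
  refine Finset.le_inf' _ _ fun x _ => ?_
  split_ifs with h1
  · exact le_rfl
  · by_contra h2
    exact h1 (h x (not_le.mp h2).le)

/-- `pad` is 1-Lipschitz -/
theorem pad_lip {δ : X → X → ℝ} (hδ : IsMet δ) (Q : X → ℕ) {B : ℝ} (hB : 0 ≤ B) (z y : X) :
    pad δ Q B z ≤ pad δ Q B y + δ z y := by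
  by_cases hzy : Q z = Q y
  · have h1 : pad δ Q B z - δ z y ≤ pad δ Q B y := by
      conv_rhs => unfold pad
      refine Finset.le_inf' _ _ fun x _ => ?_
      have hnn : 0 ≤ δ z y := by
        by_cases e : z = y
        · rw [e, hδ.self]
        · exact (hδ.pos z y e).le
      split_ifs with h
      · have := pad_le_B δ Q B z
        linarith
      · have h2 := pad_le δ Q B z x (by rw [hzy]; exact h)
        have h3 := hδ.tri z y x
        linarith
    linarith
  · have h1 := pad_le δ Q B z y (fun e => hzy e.symm)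
    have h2 := pad_nonneg hδ Q hB y
    linarith

theorem cut_of (δ : X → X → ℝ) (P : X → ℕ) (β : ℕ) (Q : X → ℕ) (B R : ℝ) (M : ℕ) (z : X)
    (h : P z = β ∧ R ≤ pad δ Q B z) : cut δ P β Q B R M z = M + Q z := by
  unfold cut
  exact if_pos h

theorem cut_not (δ : X → X → ℝ) (P : X → ℕ) (β : ℕ) (Q : X → ℕ) (B R : ℝ) (M : ℕ) (z : X)
    (h : ¬ (P z = β ∧ R ≤ pad δ Q B z)) : cut δ P β Q B R M z = P z := by
  unfold cut
  exact if_neg h

theorem cut_beta (δ : X → X → ℝ) (P : X → ℕ) (β : ℕ) (Q : X → ℕ) (B R : ℝ) (M : ℕ) (z : X)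
    (hb : β < M) (h : cut δ P β Q B R M z = β) : P z = β ∧ pad δ Q B z < R := by
  by_cases hn : P z = β ∧ R ≤ pad δ Q B z
  · rw [cut_of δ P β Q B R M z hn] at h
    omega
  · rw [cut_not δ P β Q B R M z hn] at h
    refine ⟨h, ?_⟩
    by_contra hx
    exact hn ⟨h, not_lt.mp hx⟩

theorem cut_ge (δ : X → X → ℝ) (P : X → ℕ) (β : ℕ) (Q : X → ℕ) (B R : ℝ) (M : ℕ) (z : X)
    (hM : ∀ z, P z < M) (h : M ≤ cut δ P β Q B R M z) : P z = β ∧ R ≤ pad δ Q B z := by
  by_contra hn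
  rw [cut_not δ P β Q B R M z hn] at h
  exact absurd (hM z) (not_lt.mpr h)

/-- cut points of a small ball have the label of the center -/
theorem same {δ : X → X → ℝ} (hδ : IsMet δ) (Q : X → ℕ) (B R : ℝ) (y z : X) {t : ℝ}
    (ht : t < R) (hz : δ y z ≤ t) (h : R ≤ pad δ Q B z) : Q z = Q y := by
  by_contra hn
  have h1 := pad_le δ Q B z y (fun e => hn e.symm)
  rw [hδ.symm z y] at h1
  linarith

theorem sub1 {δ : X → X → ℝ} (hδ : IsMet δ) (P : X → ℕ) (β M : ℕ) (Q : X → ℕ) (B R : ℝ) (y : X)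
    {t : ℝ} (ht : t < R) :
    bl δ (cut δ P β Q B R M) y t ⊆ insert (M + Q y) (bl δ P y t) := by
  intro b hb
  rw [mem_bl] at hb
  obtain ⟨z, hz, h⟩ := hb
  rw [mem_insert, mem_bl]
  by_cases hn : P z = β ∧ R ≤ pad δ Q B z
  · rw [cut_of δ P β Q B R M z hn, same hδ Q B R y z ht hz hn.2] at h
    exact Or.inl h.symm
  · rw [cut_not δ P β Q B R M z hn] at h
    exact Or.inr ⟨z, hz, h⟩

theorem cardB {δ : X → X → ℝ} (hδ : IsMet δ) (P : X → ℕ) (β M : ℕ) (Q : X → ℕ) (B R : ℝ) (y : X)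
    {t : ℝ} (ht : t < R) :
    mm δ (cut δ P β Q B R M) y t ≤ mm δ P y t + 1 :=
  (card_le_card (sub1 hδ P β M Q B R y ht)).trans (card_insert_le _ _)

theorem cardM {δ : X → X → ℝ} (P : X → ℕ) (β M : ℕ) (Q : X → ℕ) (B R : ℝ) (y : X)
    {t : ℝ} (h : ∀ z, δ y z ≤ t → ¬ (P z = β ∧ R ≤ pad δ Q B z)) :
    mm δ (cut δ P β Q B R M) y t ≤ mm δ P y t := by
  refine card_le_card ?_
  intro b hb
  rw [mem_bl] at hb ⊢
  obtain ⟨z, hz, e⟩ := hb
  rw [cut_not δ P β Q B R M z (h z hz)] at e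
  exact ⟨z, hz, e⟩

theorem cardbeta {δ : X → X → ℝ} (hδ : IsMet δ) (P : X → ℕ) (β M : ℕ) (Q : X → ℕ) (B R : ℝ)
    (y : X) {t : ℝ} (ht : t < R) (h : β ∉ bl δ (cut δ P β Q B R M) y t) :
    mm δ (cut δ P β Q B R M) y t ≤ mm δ P y t := by
  by_cases hm : ∃ z, δ y z ≤ t ∧ (P z = β ∧ R ≤ pad δ Q B z)
  · obtain ⟨z, hz, h1⟩ := hm
    have hβ : β ∈ bl δ P y t := by
      rw [mem_bl]
      exact ⟨z, hz, h1.1⟩
    have hsub : bl δ (cut δ P β Q B R M) y t ⊆ insert (M + Q y) ((bl δ P y t).erase β) := by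
      intro b hb
      have h3 := sub1 hδ P β M Q B R y ht hb
      rw [mem_insert] at h3 ⊢
      rcases h3 with h3 | h3
      · exact Or.inl h3
      · right
        rw [mem_erase]
        refine ⟨?_, h3⟩
        intro h4
        rw [h4] at hb
        exact h hb
    calc mm δ (cut δ P β Q B R M) y t
        ≤ (insert (M + Q y) ((bl δ P y t).erase β)).card := card_le_card hsub
      _ ≤ ((bl δ P y t).erase β).card + 1 := card_insert_le _ _
      _ = (bl δ P y t).card := card_erase_add_one hβ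
      _ = mm δ P y t := rfl
  · push Not at hm
    exact cardM P β M Q B R y fun z hz h2 => absurd h2.2 (not_le.mpr (hm z hz h2.1))

theorem rad_le (r : ℝ) (hr : 0 ≤ r) (s : ℕ) : r / 2 ^ s ≤ r :=
  div_le_self hr (one_le_pow₀ (by norm_num))

open Classical in
theorem nr_eq (r : ℝ) (k : ℕ) (x : ℝ) :
    nr r k x = ∑ s ∈ range k, (if |x| ≤ r / 2 ^ s then 1 else 0) := by
  unfold nr
  exact card_filter _ _

end ICUT

open ICUT in
theorem pr_CUT : S_CUT := by
  intro X _ δ hδ P Q β M y B R r k hr hrR hB hM hb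
  have hlt : ∀ s : ℕ, r / 2 ^ s < R := fun s => lt_of_le_of_lt (rad_le r hr s) hrR
  refine ⟨?_, ?_, ?_⟩
  · rw [nr_eq]
    unfold ee
    rw [← sum_add_distrib]
    refine sum_le_sum ?_
    intro s _
    by_cases hx : |R - pad δ Q B y| ≤ r / 2 ^ s
    · rw [if_pos hx]
      exact cardB hδ P β M Q B R y (hlt s)
    · rw [if_neg hx, add_zero]
      rw [abs_le, not_and_or, not_le, not_le] at hx
      rcases hx with hx | hx
      · -- `pad y > R + t`
        refine cardbeta hδ P β M Q B R y (hlt s) ?_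
        intro h2
        rw [mem_bl] at h2
        obtain ⟨z, hz, e⟩ := h2
        have h3 := (cut_beta δ P β Q B R M z hb e).2
        have h4 := pad_lip hδ Q hB y z
        linarith
      · refine cardM P β M Q B R y ?_
        intro z hz h2
        have h4 := pad_lip hδ Q hB z y
        rw [hδ.symm z y] at h4
        linarith [h2.2]
  · intro h
    refine ⟨?_, ?_⟩
    · unfold ee
      refine sum_le_sum ?_
      intro s _
      refine cardM P β M Q B R y ?_
      intro z hz h2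
      refine h ?_
      rw [mem_bl]
      exact ⟨z, hz.trans (rad_le r hr s), h2.1⟩
    · intro h2
      rw [mem_bl] at h2
      obtain ⟨z, hz, e⟩ := h2
      refine h ?_
      rw [mem_bl]
      exact ⟨z, hz, (cut_beta δ P β Q B R M z hb e).1⟩
  · intro h
    have key : ∀ t : ℝ, t ≤ r → β ∉ bl δ (cut δ P β Q B R M) y t := by
      intro t ht h2
      rw [mem_bl] at h2
      obtain ⟨z, hz, e⟩ := h2
      have h3 := (cut_beta δ P β Q B R M z hb e).2
      have h4 := pad_lip hδ Q hB y z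
      linarith
    refine ⟨?_, key r le_rfl⟩
    unfold ee
    refine sum_le_sum ?_
    intro s _
    exact cardbeta hδ P β M Q B R y (hlt s) (key _ (rad_le r hr s))

end Pool.Agent.UTSP.PD
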